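import Mathlib
import Pool.Agent.P8H9.TQ.Stm

set_option autoImplicit false

namespace Pool.Agent.P8H19.TQ.Dbl

open Pool.Agent.P8H9.TQ (clp lev S_DBL)

theorem close1 (h t E : ℝ) (hh1 : h ≤ 1 / 1000) (E0 : 1 / 16 ≤ E) (E1 : E ≤ 1)
    (ht : 1 / 200 ≤ t) : E ≤ 200 * max (min t 1) h ∧ max (min t 1) h ≤ 200 * E := by
  have h1 : 1 / 200 ≤ min t 1 := le_min ht (by norm_num)
  have h2 : min t 1 ≤ max (min t 1) h := le_max_left _ _
  have h3 : max (min t 1) h ≤ 1 := max_le (min_le_right _ _) (by linarith)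
  constructor <;> linarith

theorem close2 (h t E : ℝ) (Eh : h ≤ E) (E0 : 0 < E) (E1 : E ≤ 1)
    (ht : t ≤ 200 * E) (ht2 : E ≤ 200 * t) : E ≤ 200 * max (min t 1) h ∧ max (min t 1) h ≤ 200 * E := by
  have h2 : min t 1 ≤ max (min t 1) h := le_max_left _ _
  have h3 : max (min t 1) h ≤ 200 * E := max_le ((min_le_left _ _).trans ht) (by linarith)
  refine ⟨?_, h3⟩
  have h4 : E / 200 ≤ min t 1 := le_min (by linarith) (by linarith)
  linarith

theorem close3 (h t E : ℝ) (hh : 0 < h) (Eh : h ≤ E) (E1 : E ≤ 5 * h)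
    (ht : t ≤ 200 * E) : E ≤ 200 * max (min t 1) h ∧ max (min t 1) h ≤ 200 * E := by
  have h2 : h ≤ max (min t 1) h := le_max_right _ _
  have h3 : max (min t 1) h ≤ 200 * E := max_le ((min_le_left _ _).trans ht) (by linarith)
  exact ⟨by linarith, h3⟩

/-- case 1 of the proof: `|z| > 1/4` -/
theorem case1 (h r p q n t : ℝ) (hh : 0 < h) (hh1 : h ≤ 1 / 1000) (hp : 0 < p) (hq : 0 < q)
    (ht : 0 ≤ t) (p1 : p ≤ r + 1) (q1 : q ≤ r ^ 2 + h ^ 2)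
    (q2 : r ^ 2 - h ^ 2 ≤ q) (n2 : q ^ 2 - 4 * h ^ 2 * p ^ 2 ≤ n) (e : 4 * (p * q) * t = n)
    (c1 : 1 / 4 < r) : 1 / 200 ≤ t := by
  have hsq : h ^ 2 ≤ (1 / 1000) ^ 2 := pow_le_pow_left₀ hh.le hh1 2
  have r2 : (1 / 4) ^ 2 ≤ r ^ 2 := pow_le_pow_left₀ (by norm_num) c1.le 2
  have r0 : 0 < r := by linarith
  have a1 : p ≤ 5 * r := by linarith
  have a2 : q ≤ 1.001 * r ^ 2 := by norm_num at *; linarith
  have a3 : 0.999 * r ^ 2 ≤ q := by norm_num at *; linarith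
  have a4 : p ^ 2 ≤ (5 * r) ^ 2 := pow_le_pow_left₀ hp.le a1 2
  have a5 : (0.999 * r ^ 2) ^ 2 ≤ q ^ 2 := pow_le_pow_left₀ (by positivity) a3 2
  have a6 : r ^ 2 * (1 / 4) ^ 2 ≤ r ^ 2 * r ^ 2 := mul_le_mul_of_nonneg_left r2 (by positivity)
  have a7 : h ^ 2 * p ^ 2 ≤ (1 / 1000) ^ 2 * (5 * r) ^ 2 := mul_le_mul hsq a4 (by positivity) (by norm_num)
  have a8 : 0.9 * (r ^ 2 * r ^ 2) ≤ n := by
    have x1 : (0.999 * r ^ 2) ^ 2 = 0.998001 * (r ^ 2 * r ^ 2) := by ring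
    have x2 : (1 / 1000 : ℝ) ^ 2 * (5 * r) ^ 2 = 0.000025 * r ^ 2 := by ring
    have x3 : r ^ 2 * (1 / 4 : ℝ) ^ 2 = r ^ 2 / 16 := by ring
    rw [x1] at a5
    rw [x2] at a7
    rw [x3] at a6
    linarith
  have a9 : p * q ≤ 5 * r * (1.001 * r ^ 2) := mul_le_mul a1 a2 hq.le (by positivity)
  have r3 : 0 < r ^ 3 := by positivity
  by_contra hc
  push Not at hc
  have a11 : 4 * (p * q) * t ≤ 4 * (5 * r * (1.001 * r ^ 2)) * (1 / 200) :=
    mul_le_mul (by linarith) hc.le ht (by positivity)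
  have a12 : r ^ 2 * r ^ 2 = r ^ 3 * r := by ring
  have a13 : 4 * (5 * r * (1.001 * r ^ 2)) * (1 / 200) = 0.1001 * r ^ 3 := by ring
  rw [e, a13] at a11
  rw [a12] at a8
  have a14 : r ^ 3 * (1 / 4) ≤ r ^ 3 * r := mul_le_mul_of_nonneg_left c1.le r3.le
  linarith

/-- case 2 of the proof: `2 h ≤ |z| ≤ 1/4` -/
theorem case2 (h p q n t A E : ℝ) (hh : 0 < h) (hp : 0 < p) (hq : 0 < q)
    (ht : 0 ≤ t) (q1 : q ≤ A ^ 2 + h ^ 2) (q2 : A ^ 2 - h ^ 2 ≤ q)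
    (n1 : n ≤ q ^ 2 + 4 * h ^ 2 * p ^ 2) (n2 : q ^ 2 - 4 * h ^ 2 * p ^ 2 ≤ n)
    (n3 : 4 * h ^ 2 * p ^ 2 - q ^ 2 ≤ n) (e : 4 * (p * q) * t = n)
    (hE : E = max (A ^ 2) (h ^ 2 / A ^ 2)) (p3 : 3 / 4 ≤ p) (p4 : p ≤ 5 / 4) (c2 : 2 * h ≤ A)
    (Eh : h ≤ E) (E1 : E ≤ 1) :
    E ≤ 200 * max (min t 1) h ∧ max (min t 1) h ≤ 200 * E := by
  have Ap : 0 < A := by linarith
  have Ap2 : 0 < A ^ 2 := by positivity
  have E0 : 0 < E := by linarith
  have E2 : A ^ 2 ≤ E := hE ▸ le_max_left _ _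
  have E3 : h ^ 2 / A ^ 2 ≤ E := hE ▸ le_max_right _ _
  have E3' : h ^ 2 ≤ E * A ^ 2 := (div_le_iff₀ Ap2).1 E3
  have hsp : 0 < h ^ 2 := by positivity
  have p5 : p ^ 2 ≤ (5 / 4) ^ 2 := pow_le_pow_left₀ hp.le p4 2
  have p6 : (3 / 4) ^ 2 ≤ p ^ 2 := pow_le_pow_left₀ (by norm_num) p3 2
  have r1 : (2 * h) ^ 2 ≤ A ^ 2 := pow_le_pow_left₀ (by positivity) c2 2
  have r1' : h ^ 2 ≤ A ^ 2 / 4 := by linarith
  have b1 : q ≤ 5 / 4 * A ^ 2 := by linarith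
  have b2 : 3 / 4 * A ^ 2 ≤ q := by linarith
  have b3 : p * q ≤ 5 / 4 * (5 / 4 * A ^ 2) := mul_le_mul p4 b1 hq.le (by norm_num)
  have b4 : 3 / 4 * (3 / 4 * A ^ 2) ≤ p * q := mul_le_mul p3 b2 (by positivity) hp.le
  have b5 : q ^ 2 ≤ (5 / 4 * A ^ 2) ^ 2 := pow_le_pow_left₀ hq.le b1 2
  have b6 : (3 / 4 * A ^ 2) ^ 2 ≤ q ^ 2 := pow_le_pow_left₀ (by positivity) b2 2
  have b5' : (5 / 4 * A ^ 2) ^ 2 = 25 / 16 * (A ^ 2 * A ^ 2) := by ring
  have b6' : (3 / 4 * A ^ 2) ^ 2 = 9 / 16 * (A ^ 2 * A ^ 2) := by ring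
  rw [b5'] at b5
  rw [b6'] at b6
  have b7 : h ^ 2 * p ^ 2 ≤ h ^ 2 * (5 / 4) ^ 2 := mul_le_mul_of_nonneg_left p5 hsp.le
  have b8 : h ^ 2 * (3 / 4) ^ 2 ≤ h ^ 2 * p ^ 2 := mul_le_mul_of_nonneg_left p6 hsp.le
  set S := A ^ 2 with hS
  have u1 : t ≤ 200 * E := by
    have u2 : 4 * (3 / 4 * (3 / 4 * S)) * t ≤ 4 * (p * q) * t := by
      apply mul_le_mul_of_nonneg_right _ ht
      linarith
    have u4 : S * S ≤ E * S := mul_le_mul_of_nonneg_right E2 Ap2.le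
    have u5 : 9 / 4 * t * S ≤ 10 * E * S := by linarith
    have u6 : 9 / 4 * t ≤ 10 * E := le_of_mul_le_mul_right u5 Ap2
    linarith
  have v2 : 4 * (p * q) * t ≤ 4 * (5 / 4 * (5 / 4 * S)) * t := by
    apply mul_le_mul_of_nonneg_right _ ht
    linarith
  by_cases c3 : 20 * h ^ 2 ≤ S * S
  · apply close2 h t E Eh E0 E1 u1
    have v3 : S * S ≤ 25 * t * S := by linarith
    have v4 : S ≤ 25 * t := le_of_mul_le_mul_right v3 Ap2
    have v5 : E = S := by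
      rw [hE, max_eq_left]
      rw [div_le_iff₀ Ap2]
      linarith
    rw [v5]; linarith
  · by_cases c4 : S * S ≤ 0.8 * h ^ 2
    · apply close2 h t E Eh E0 E1 u1
      have v5 : E = h ^ 2 / S := by
        rw [hE, max_eq_right]
        rw [le_div_iff₀ Ap2]
        norm_num at *
        linarith
      rw [v5, div_le_iff₀ Ap2]
      have v6 : 0 ≤ t * S := mul_nonneg ht Ap2.le
      norm_num at c4
      linarith
    · push Not at c3 c4
      apply close3 h t E hh Eh _ u1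
      rw [hE]
      apply max_le
      · by_contra hc
        push Not at hc
        have : 5 * h * (5 * h) < S * S := mul_self_lt_mul_self (by positivity) hc
        linarith
      · rw [div_le_iff₀ Ap2]
        by_contra hc
        push Not at hc
        have w1 : 5 * S < h := by
          have x1 : 5 * S * h < h * h := by
            rw [show 5 * S * h = 5 * h * S by ring, ← sq]; exact hc
          exact lt_of_mul_lt_mul_right x1 hh.le
        have w2 : 5 * S * (5 * S) < h * h := mul_self_lt_mul_self (by positivity) w1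
        norm_num at c4
        linarith

/-- case 3 of the proof: `|z| < 2 h` -/
theorem case3 (h r p q n t : ℝ) (hh : 0 < h) (hh1 : h ≤ 1 / 1000) (hr : 0 ≤ r) (hq : 0 < q)
    (ht : 0 ≤ t) (q1 : q ≤ r ^ 2 + h ^ 2)
    (n3 : 4 * h ^ 2 * p ^ 2 - q ^ 2 ≤ n) (e : 4 * (p * q) * t = n)
    (p3 : 3 / 4 ≤ p) (p4 : p ≤ 5 / 4) (c2 : r < 2 * h) : 1 / 200 ≤ t := by
  have hsq : h ^ 2 ≤ (1 / 1000) ^ 2 := pow_le_pow_left₀ hh.le hh1 2
  have hsp : 0 < h ^ 2 := by positivity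
  have p6 : (3 / 4) ^ 2 ≤ p ^ 2 := pow_le_pow_left₀ (by norm_num) p3 2
  have r2 : r ^ 2 ≤ (2 * h) ^ 2 := pow_le_pow_left₀ hr c2.le 2
  have q3 : q ≤ 5 * h ^ 2 := by linarith
  have q4 : q ^ 2 ≤ (5 * h ^ 2) ^ 2 := pow_le_pow_left₀ hq.le q3 2
  have q5 : h ^ 2 * h ^ 2 ≤ h ^ 2 * (1 / 1000) ^ 2 := mul_le_mul_of_nonneg_left hsq hsp.le
  have b8 : h ^ 2 * (3 / 4) ^ 2 ≤ h ^ 2 * p ^ 2 := mul_le_mul_of_nonneg_left p6 hsp.le
  have q4' : (5 * h ^ 2) ^ 2 = 25 * (h ^ 2 * h ^ 2) := by ring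
  rw [q4'] at q4
  have n5 : p * q ≤ 5 / 4 * (5 * h ^ 2) := mul_le_mul p4 q3 hq.le (by norm_num)
  by_contra hc
  push Not at hc
  have a11 : 4 * (p * q) * t ≤ 4 * (5 / 4 * (5 * h ^ 2)) * (1 / 200) :=
    mul_le_mul (by linarith) hc.le ht (by positivity)
  rw [e] at a11
  linarith

theorem core (h r p q n t A E : ℝ) (hh : 0 < h) (hh1 : h ≤ 1 / 1000) (hr : 0 ≤ r) (hp : 0 < p) (hq : 0 < q)
    (ht : 0 ≤ t) (p1 : p ≤ r + 1) (p2 : 1 - r ≤ p) (q1 : q ≤ r ^ 2 + h ^ 2)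
    (q2 : r ^ 2 - h ^ 2 ≤ q)
    (n1 : n ≤ q ^ 2 + 4 * h ^ 2 * p ^ 2) (n2 : q ^ 2 - 4 * h ^ 2 * p ^ 2 ≤ n)
    (n3 : 4 * h ^ 2 * p ^ 2 - q ^ 2 ≤ n) (e : 4 * (p * q) * t = n)
    (hA : A = max (min r 1) h) (hE : E = max (A ^ 2) (h ^ 2 / A ^ 2)) :
    E ≤ 200 * max (min t 1) h ∧ max (min t 1) h ≤ 200 * E := by
  have A0 : h ≤ A := hA ▸ le_max_right _ _
  have A1 : A ≤ 1 := hA ▸ max_le (min_le_right _ _) (by linarith)
  have Ap : 0 < A := by linarith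
  have Ap2 : 0 < A ^ 2 := by positivity
  have hsp : 0 < h ^ 2 := by positivity
  have hA2 : h ^ 2 ≤ A ^ 2 := pow_le_pow_left₀ hh.le A0 2
  have E1 : E ≤ 1 := by
    rw [hE]; apply max_le
    · exact pow_le_one₀ Ap.le A1
    · rw [div_le_one Ap2]; exact hA2
  have E2 : A ^ 2 ≤ E := hE ▸ le_max_left _ _
  have E3 : h ^ 2 / A ^ 2 ≤ E := hE ▸ le_max_right _ _
  have E3' : h ^ 2 ≤ E * A ^ 2 := (div_le_iff₀ Ap2).1 E3
  have E0 : 0 < E := by linarith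
  have Eh : h ≤ E := by
    by_contra hc
    push Not at hc
    have h1 : E * A ^ 2 ≤ E * E := mul_le_mul_of_nonneg_left E2 E0.le
    have h2 : E * E < h * h := mul_self_lt_mul_self E0.le hc
    have h3 : h ^ 2 = h * h := sq h
    linarith
  by_cases c1 : 1 / 4 < r
  · have A2 : 1 / 4 ≤ A := by
      rw [hA]
      exact (le_min c1.le (by norm_num)).trans (le_max_left _ _)
    have E4 : (1 / 4) ^ 2 ≤ A ^ 2 := pow_le_pow_left₀ (by norm_num) A2 2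
    exact close1 h t E hh1 (by linarith) E1 (case1 h r p q n t hh hh1 hp hq ht p1 q1 q2 n2 e c1)
  · push Not at c1
    have p3 : 3 / 4 ≤ p := by linarith
    have p4 : p ≤ 5 / 4 := by linarith
    by_cases c2 : 2 * h ≤ r
    · have hAr : A = r := by
        rw [hA, min_eq_left (by linarith), max_eq_left (by linarith)]
      subst hAr
      exact case2 h p q n t A E hh hp hq ht q1 q2 n1 n2 n3 e hE p3 p4 c2 Eh E1
    · push Not at c2
      have A2 : A ≤ 2 * h := by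
        rw [hA]; exact max_le ((min_le_left _ _).trans c2.le) (by linarith)
      have A3 : A ^ 2 ≤ (2 * h) ^ 2 := pow_le_pow_left₀ Ap.le A2 2
      have E4 : 1 / 4 ≤ E := by
        refine le_trans ?_ E3
        rw [le_div_iff₀ Ap2]
        linarith
      exact close1 h t E hh1 (by linarith) E1 (case3 h r p q n t hh hh1 hr hq ht q1 n3 e p3 p4 c2)

theorem t_DBL : S_DBL := by
  refine ⟨Real.log 200, Real.log_nonneg (by norm_num), ?_, ?_⟩
  · intro h ε z zd hh hh1 hε hne heq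
    have hp : 0 < ‖z + 1‖ := norm_pos_iff.2 (left_ne_zero_of_mul hne)
    have hq : 0 < ‖z ^ 2 - ε‖ := norm_pos_iff.2 (right_ne_zero_of_mul hne)
    have e4 : ‖(4 : ℂ)‖ = 4 := by norm_num
    have e1 : ‖4 * ε * (z + 1) ^ 2‖ = 4 * h ^ 2 * ‖z + 1‖ ^ 2 := by
      rw [norm_mul, norm_mul, norm_pow, hε, e4]
    have e2 : ‖(z ^ 2 - ε) ^ 2‖ = ‖z ^ 2 - ε‖ ^ 2 := norm_pow _ _
    have n1 : ‖(z ^ 2 - ε) ^ 2 + 4 * ε * (z + 1) ^ 2‖ ≤ ‖z ^ 2 - ε‖ ^ 2 + 4 * h ^ 2 * ‖z + 1‖ ^ 2 := by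
      have := norm_add_le ((z ^ 2 - ε) ^ 2) (4 * ε * (z + 1) ^ 2)
      rwa [e1, e2] at this
    have n2 : ‖z ^ 2 - ε‖ ^ 2 - 4 * h ^ 2 * ‖z + 1‖ ^ 2 ≤ ‖(z ^ 2 - ε) ^ 2 + 4 * ε * (z + 1) ^ 2‖ := by
      have := norm_sub_norm_le ((z ^ 2 - ε) ^ 2) (-(4 * ε * (z + 1) ^ 2))
      rwa [norm_neg, e1, e2, sub_neg_eq_add] at this
    have n3 : 4 * h ^ 2 * ‖z + 1‖ ^ 2 - ‖z ^ 2 - ε‖ ^ 2 ≤ ‖(z ^ 2 - ε) ^ 2 + 4 * ε * (z + 1) ^ 2‖ := by
      have := norm_sub_norm_le (4 * ε * (z + 1) ^ 2) (-((z ^ 2 - ε) ^ 2))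
      rwa [norm_neg, e1, e2, sub_neg_eq_add, add_comm (4 * ε * (z + 1) ^ 2)] at this
    have p1 : ‖z + 1‖ ≤ ‖z‖ + 1 := by
      have := norm_add_le z 1
      rwa [norm_one] at this
    have p2 : 1 - ‖z‖ ≤ ‖z + 1‖ := by
      have := norm_sub_norm_le (1 : ℂ) (-z)
      rwa [norm_neg, norm_one, sub_neg_eq_add, add_comm] at this
    have q1 : ‖z ^ 2 - ε‖ ≤ ‖z‖ ^ 2 + h ^ 2 := by
      have := norm_sub_le (z ^ 2) ε
      rwa [norm_pow, hε] at this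
    have q2 : ‖z‖ ^ 2 - h ^ 2 ≤ ‖z ^ 2 - ε‖ := by
      have := norm_sub_norm_le (z ^ 2) ε
      rwa [norm_pow, hε] at this
    have e3 : 4 * (‖z + 1‖ * ‖z ^ 2 - ε‖) * ‖zd‖ = ‖(z ^ 2 - ε) ^ 2 + 4 * ε * (z + 1) ^ 2‖ := by
      rw [← heq, norm_mul, norm_mul, norm_mul, e4]; ring
    obtain ⟨r1, r2⟩ := core h ‖z‖ ‖z + 1‖ ‖z ^ 2 - ε‖ _ ‖zd‖ (clp h z) _ hh hh1 (norm_nonneg _) hp hq
      (norm_nonneg _) p1 p2 q1 q2 n1 n2 n3 e3 rfl rfl
    have hA : h ≤ clp h z := le_max_right _ _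
    have hAp : 0 < clp h z := by linarith
    have hX : h ≤ max (min ‖zd‖ 1) h := le_max_right _ _
    set X := max (min ‖zd‖ 1) h with hXd
    have hXp : 0 < X := by linarith
    set E := max (clp h z ^ 2) (h ^ 2 / clp h z ^ 2) with hE
    have hE0 : 0 < E := lt_of_lt_of_le (by positivity) (le_max_left _ _)
    have hlE : min (2 * lev h z) (2 * -Real.log h - 2 * lev h z) = - Real.log E := by
      have g1 : 2 * lev h z = - Real.log (clp h z ^ 2) := by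
        unfold lev; rw [Real.log_pow]; push_cast; ring
      have g2 : 2 * -Real.log h - 2 * lev h z = - Real.log (h ^ 2 / clp h z ^ 2) := by
        unfold lev
        rw [Real.log_div (by positivity) (by positivity), Real.log_pow, Real.log_pow]; push_cast; ring
      rw [g2, g1, hE]
      rcases le_total (clp h z ^ 2) (h ^ 2 / clp h z ^ 2) with hc | hc
      · rw [max_eq_right hc, min_eq_right]
        exact neg_le_neg (Real.log_le_log (by positivity) hc)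
      · rw [max_eq_left hc, min_eq_left]
        exact neg_le_neg (Real.log_le_log (by positivity) hc)
    rw [hlE]
    have hlX : lev h zd = - Real.log X := rfl
    rw [hlX]
    have l1 := Real.log_le_log hE0 r1
    have l2 := Real.log_le_log hXp r2
    rw [Real.log_mul (by norm_num) hXp.ne'] at l1
    rw [Real.log_mul (by norm_num) hE0.ne'] at l2
    rw [abs_le]
    constructor <;> linarith
  · intro h ε z hh hh1 hε hz
    have hl : Real.log h ≤ 0 := Real.log_nonpos hh.le (by linarith)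
    rcases mul_eq_zero.1 hz with h1 | h1
    · have h2 : z = -1 := by linear_combination h1
      have : lev h z = 0 := by
        unfold lev clp
        rw [h2, norm_neg, norm_one, min_self, max_eq_left (by linarith), Real.log_one, neg_zero]
      rw [this, mul_zero, sub_zero, min_eq_left (by linarith)]
    · have h2 : ‖z‖ = h := by
        have : z ^ 2 = ε := by linear_combination h1
        have h3 : ‖z‖ ^ 2 = h ^ 2 := by rw [← norm_pow, this, hε]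
        exact (sq_eq_sq₀ (norm_nonneg _) hh.le).1 h3
      have : lev h z = -Real.log h := by
        unfold lev clp
        rw [h2, min_eq_left (by linarith), max_self]
      rw [this, sub_self, min_eq_right (by linarith)]

end Pool.Agent.P8H19.TQ.Dbl
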