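import Mathlib
import Pool.Agent.P8H9.TQ.Stm

set_option autoImplicit false

namespace Pool.Agent.P8H19.TQ.Seq

open Pool.Agent.P8H9.TQ (dn Near S_SEQ)

theorem dn_eq (t : ℝ) (n : ℤ) (h : |t - n| ≤ 1 / 2) : dn t = |t - n| := by
  unfold dn
  apply le_antisymm (round_le t n)
  rcases eq_or_ne (round t) n with h1 | h1
  · rw [h1]
  · have h2 : (1 : ℝ) ≤ |((round t : ℤ) : ℝ) - n| := by
      have : (1 : ℤ) ≤ |round t - n| := Int.one_le_abs (sub_ne_zero.mpr h1)
      exact_mod_cast this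
    have h3 : |((round t : ℤ) : ℝ) - n| ≤ |t - round t| + |t - n| := by
      have := abs_sub_le ((round t : ℤ) : ℝ) t n
      rw [abs_sub_comm ((round t : ℤ) : ℝ) t] at this
      exact this
    linarith

theorem dn_le (t : ℝ) : dn t ≤ 1 / 2 := abs_sub_round t
theorem dn_nonneg (t : ℝ) : 0 ≤ dn t := abs_nonneg _

theorem dn_neg (t : ℝ) : dn (-t) = dn t := by
  have h : |(-t) - ((-round t : ℤ) : ℝ)| ≤ 1 / 2 := by
    push_cast
    rw [show -t - -((round t : ℤ) : ℝ) = -(t - round t) by ring, abs_neg]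
    exact abs_sub_round t
  rw [dn_eq (-t) (-round t) h]
  unfold dn
  push_cast
  rw [show -t - -((round t : ℤ) : ℝ) = -(t - round t) by ring, abs_neg]

theorem dn_add_int (t : ℝ) (n : ℤ) : dn (n + t) = dn t := by
  have h : |(n + t : ℝ) - ((n + round t : ℤ) : ℝ)| ≤ 1 / 2 := by
    push_cast
    rw [show (n + t : ℝ) - ((n : ℝ) + ((round t : ℤ) : ℝ)) = t - round t by ring]
    exact abs_sub_round t
  rw [dn_eq _ _ h]
  unfold dn
  push_cast
  rw [show (n + t : ℝ) - ((n : ℝ) + ((round t : ℤ) : ℝ)) = t - round t by ring]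

theorem dn_small (t : ℝ) (h : |t| ≤ 1 / 2) : dn t = |t| := by
  have := dn_eq t 0 (by simpa using h)
  simpa using this

theorem dn_unit (t : ℝ) (h0 : 0 ≤ t) (h1 : t ≤ 1) : dn t = min t (1 - t) := by
  rcases le_total t (1 / 2) with h | h
  · rw [dn_small t (by rw [abs_of_nonneg h0]; exact h), abs_of_nonneg h0, min_eq_left (by linarith)]
  · have h2 : |t - ((1 : ℤ) : ℝ)| = 1 - t := by
      push_cast
      rw [abs_of_nonpos (by linarith)]; ring
    rw [dn_eq t 1 (by rw [h2]; linarith), h2, min_eq_right (by linarith)]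

theorem dn_cases (u : ℝ) : (∃ n : ℤ, u = n + dn u) ∨ (∃ n : ℤ, u = n - dn u) := by
  unfold dn
  rcases abs_cases (u - round u) with ⟨h, _⟩ | ⟨h, _⟩
  · left; exact ⟨round u, by rw [h]; ring⟩
  · right; exact ⟨round u, by rw [h]; ring⟩

theorem dn_step (u θ : ℝ) (h0 : 0 ≤ θ) (h1 : θ ≤ 1 / 2) :
    (dn (u + θ) = |θ - dn u| ∧ dn (u - θ) = min (θ + dn u) (1 - θ - dn u)) ∨
    (dn (u - θ) = |θ - dn u| ∧ dn (u + θ) = min (θ + dn u) (1 - θ - dn u)) := by
  have hs0 := dn_nonneg u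
  have hs1 := dn_le u
  have habs : dn (θ - dn u) = |θ - dn u| := dn_small _ (by rw [abs_le]; constructor <;> linarith)
  have hmin : dn (θ + dn u) = min (θ + dn u) (1 - θ - dn u) := by
    rw [dn_unit _ (by linarith) (by linarith)]
    congr 1; ring
  rcases dn_cases u with ⟨n, hn⟩ | ⟨n, hn⟩
  · right
    constructor
    · have : u - θ = n + -(θ - dn u) := by linarith
      rw [this, dn_add_int, dn_neg, habs]
    · have : u + θ = n + (θ + dn u) := by linarith
      rw [this, dn_add_int, hmin]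
  · left
    constructor
    · have : u + θ = n + (θ - dn u) := by linarith
      rw [this, dn_add_int, habs]
    · have : u - θ = n + -(θ + dn u) := by linarith
      rw [this, dn_add_int, dn_neg, hmin]

theorem dn_two (u : ℝ) : dn (2 * u) = min (2 * dn u) (1 - 2 * dn u) := by
  have hs0 := dn_nonneg u
  have hs1 := dn_le u
  have hmin : dn (2 * dn u) = min (2 * dn u) (1 - 2 * dn u) := dn_unit _ (by linarith) (by linarith)
  rcases dn_cases u with ⟨n, hn⟩ | ⟨n, hn⟩
  · have : 2 * u = ((2 * n : ℤ) : ℝ) + 2 * dn u := by push_cast; linarith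
    rw [this, dn_add_int, hmin]
  · have : 2 * u = ((2 * n : ℤ) : ℝ) + -(2 * dn u) := by push_cast; linarith
    rw [this, dn_add_int, dn_neg, hmin]

theorem minlip (x y E : ℝ) (A B : ℝ) (h : |x - y| ≤ E) : |min (A + x) (B - x) - min (A + y) (B - y)| ≤ E := by
  rw [abs_le] at h ⊢
  constructor
  · rcases min_choice (A + x) (B - x) with h1 | h1 <;> rw [h1]
    · have := min_le_left (A + y) (B - y); linarith
    · have := min_le_right (A + y) (B - y); linarith
  · rcases min_choice (A + y) (B - y) with h1 | h1 <;> rw [h1]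
    · have := min_le_left (A + x) (B - x); linarith
    · have := min_le_right (A + x) (B - x); linarith

theorem abslip (x y E A : ℝ) (h : |x - y| ≤ E) : |(|A - x| - |A - y|)| ≤ E := by
  refine (abs_abs_sub_abs_le _ _).trans ?_
  rw [show A - x - (A - y) = -(x - y) by ring, abs_neg]; exact h

theorem stepping (c E E' xp xm yp ym p q p0 q0 : ℝ) (hn : Near c xp xm p q)
    (hy : (yp = p0 ∧ ym = q0) ∨ (ym = p0 ∧ yp = q0)) (hp : |p - p0| ≤ E) (hq : |q - q0| ≤ E)
    (hm : |xm - ym| ≤ E') : |xp - yp| ≤ 2 * c + 2 * E + E' := by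
  have hE' : 0 ≤ E' := (abs_nonneg _).trans hm
  have hE : 0 ≤ E := (abs_nonneg _).trans hp
  have hc : 0 ≤ c := by
    rcases hn with ⟨h1, -⟩ | ⟨h1, -⟩ <;> exact (abs_nonneg _).trans h1
  rw [abs_le] at hp hq hm ⊢
  rcases hn with ⟨h1, h2⟩ | ⟨h1, h2⟩ <;> rw [abs_le] at h1 h2 <;>
    rcases hy with ⟨h3, h4⟩ | ⟨h3, h4⟩ <;> subst h3 h4 <;> constructor <;> linarith

theorem t_SEQ : S_SEQ := by
  intro G _ f c H hc hH h0 hb hl hd P k m
  set θ : ℝ := f P / (2 * H) with hθ
  have hH2 : (2 * H) ≠ 0 := by positivity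
  have hθ' : 2 * H * θ = f P := by rw [hθ]; field_simp
  have hθ0 : 0 ≤ θ := div_nonneg (hb P).1 (by linarith)
  have hθ1 : θ ≤ 1 / 2 := by
    rw [hθ, div_le_iff₀ (by linarith)]
    have := (hb P).2
    linarith
  have hex : ∀ u : ℝ, (2 * H * dn (u + θ) = |f P - 2 * H * dn u| ∧
      2 * H * dn (u - θ) = min (f P + 2 * H * dn u) (2 * H - f P - 2 * H * dn u)) ∨
      (2 * H * dn (u - θ) = |f P - 2 * H * dn u| ∧
      2 * H * dn (u + θ) = min (f P + 2 * H * dn u) (2 * H - f P - 2 * H * dn u)) := by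
    intro u
    have e1 : 2 * H * |θ - dn u| = |f P - 2 * H * dn u| := by
      rw [← hθ', ← mul_sub, abs_mul, abs_of_pos (by linarith : 0 < 2 * H)]
    have e2 : 2 * H * min (θ + dn u) (1 - θ - dn u) =
        min (f P + 2 * H * dn u) (2 * H - f P - 2 * H * dn u) := by
      rw [mul_min_of_nonneg _ _ (by linarith : 0 ≤ 2 * H), ← hθ']
      congr 1 <;> ring
    rcases dn_step u θ hθ0 hθ1 with ⟨h1, h2⟩ | ⟨h1, h2⟩
    · left; rw [h1, h2, e1, e2]; exact ⟨rfl, rfl⟩
    · right; rw [h1, h2, e1, e2]; exact ⟨rfl, rfl⟩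
  -- first part
  have h1 : ∀ k : ℕ, |f (k • P) - 2 * H * dn (k * θ)| ≤ c * 3 ^ k ∧
      |f ((k + 1) • P) - 2 * H * dn ((k + 1 : ℕ) * θ)| ≤ c * 3 ^ (k + 1) := by
    intro k
    induction k with
    | zero =>
      constructor
      · have : dn 0 = 0 := by rw [dn_small 0 (by norm_num)]; norm_num
        simp [h0, this, hc]
      · have : dn θ = θ := by
          rw [dn_small θ (by rw [abs_of_nonneg hθ0]; exact hθ1), abs_of_nonneg hθ0]
        simp only [zero_add, one_nsmul, Nat.cast_one, one_mul, this, hθ', sub_self, abs_zero]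
        positivity
    | succ k ih =>
      obtain ⟨ih1, ih2⟩ := ih
      refine ⟨ih2, ?_⟩
      have hL := hl P ((k + 1) • P)
      have e1 : (k + 1) • P + P = (k + 1 + 1) • P := (succ_nsmul P (k + 1)).symm
      have e2 : (k + 1) • P - P = k • P := by rw [succ_nsmul]; abel
      rw [e1, e2] at hL
      have hE := hex ((k + 1 : ℕ) * θ)
      have e3 : ((k + 1 : ℕ) : ℝ) * θ + θ = ((k + 1 + 1 : ℕ) : ℝ) * θ := by push_cast; ring
      have e4 : ((k + 1 : ℕ) : ℝ) * θ - θ = (k : ℝ) * θ := by push_cast; ring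
      rw [e3, e4] at hE
      have hp := abslip _ _ _ (f P) ih2
      have hq := minlip _ _ _ (f P) (2 * H - f P) ih2
      have := stepping c _ _ _ _ _ _ _ _ _ _ hL hE hp hq ih1
      refine this.trans ?_
      have h3 : (1 : ℝ) ≤ 3 ^ k := one_le_pow₀ (by norm_num)
      have h4 : c * 1 ≤ c * 3 ^ k := mul_le_mul_of_nonneg_left h3 hc
      have e5 : c * 3 ^ (k + 1 + 1) = 9 * (c * 3 ^ k) := by ring
      have e6 : c * 3 ^ (k + 1) = 3 * (c * 3 ^ k) := by ring
      rw [e5, e6]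
      linarith
  have h2 : ∀ m : ℕ, |f ((2 ^ m * k) • P) - 2 * H * dn (2 ^ m * k * θ)| ≤ 2 ^ m * (c * 3 ^ k + c) - c := by
    intro m
    induction m with
    | zero =>
      have := (h1 k).1
      simpa using this
    | succ m ih =>
      have hD := hd ((2 ^ m * k) • P)
      have e1 : 2 • (2 ^ m * k) • P = (2 ^ (m + 1) * k) • P := by
        rw [← mul_nsmul']; congr 1; ring
      rw [e1] at hD
      have e2 : (2 : ℝ) ^ (m + 1) * k * θ = 2 * (2 ^ m * k * θ) := by ring
      rw [e2, dn_two]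
      have e3 : 2 * H * min (2 * dn (2 ^ m * k * θ)) (1 - 2 * dn (2 ^ m * k * θ)) =
          min (0 + 2 * (2 * H * dn (2 ^ m * k * θ))) (2 * H - 2 * (2 * H * dn (2 ^ m * k * θ))) := by
        rw [mul_min_of_nonneg _ _ (by linarith : 0 ≤ 2 * H)]
        congr 1 <;> ring
      rw [e3]
      have hm : |min (0 + 2 * f ((2 ^ m * k) • P)) (2 * H - 2 * f ((2 ^ m * k) • P)) -
          min (0 + 2 * (2 * H * dn (2 ^ m * k * θ))) (2 * H - 2 * (2 * H * dn (2 ^ m * k * θ)))| ≤
          2 * (2 ^ m * (c * 3 ^ k + c) - c) := by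
        apply minlip
        rw [← mul_sub, abs_mul, abs_two]
        linarith
      rw [zero_add] at hm
      have := abs_sub_le (f ((2 ^ (m + 1) * k) • P))
        (min (2 * f ((2 ^ m * k) • P)) (2 * H - 2 * f ((2 ^ m * k) • P)))
        (min (0 + 2 * (2 * H * dn (2 ^ m * k * θ))) (2 * H - 2 * (2 * H * dn (2 ^ m * k * θ))))
      refine this.trans ?_
      have e5 : (2 : ℝ) ^ (m + 1) * (c * 3 ^ k + c) - c = 2 * (2 ^ m * (c * 3 ^ k + c) - c) + c := by ring
      rw [e5]
      linarith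
  refine (h2 m).trans ?_
  have h3 : (1 : ℝ) ≤ 3 ^ k := one_le_pow₀ (by norm_num)
  have h4 : c * 1 ≤ c * 3 ^ k := mul_le_mul_of_nonneg_left h3 hc
  have h5 : (0 : ℝ) < 2 ^ m := by positivity
  nlinarith

end Pool.Agent.P8H19.TQ.Seq
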